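import Pool.Agent.H16.FU.Defs1
import Pool.Agent.H71.FQ.Loc

/-!
# Project FU: functoriality of the source of the assembly map in the group, the `K₁`-part

As `Pool/Agent/H71/FQ/LocF.lean` with `K₁` in place of `K₀`.
-/

set_option autoImplicit false

open Matrix

universe u v w

namespace Pool.Agent.H71.FU1

open Pool.Agent.H71.FQ
open Pool.Agent.H16.FU
open Pool.Agent.H71.FJ (K0 K0.map)
open Pool.Agent.H95.WH (K1 K1.mk K1.map K1.map_map FamSub conjHom FinSub)

section

variable {R : Type u} [Ring R] {G : Type v} [Group G] {n : ℕ}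

variable {H : Type*} [Group H] [Finite H] {Γ : Type w} [Group Γ]

/-- The class of a pair of commuting homomorphisms. -/
noncomputable def gsym1 (f : H →* G) (κ : Γ →* G) (h : ∀ γ a, f a * κ γ = κ γ * f a)
    (x : K1 (MonoidAlgebra R H)) (z : HG Γ n) : HnK1 R G n :=
  sy1 (rangeF f) (K1.map (MonoidAlgebra.mapDomainRingHom R f.rangeRestrict) x)
    (HG.map n (centRestrict f κ h) z)

theorem gsym1_add_left (f : H →* G) (κ : Γ →* G) (h : ∀ γ a, f a * κ γ = κ γ * f a)
    (x y : K1 (MonoidAlgebra R H)) (z : HG Γ n) :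
    gsym1 f κ h (x + y) z = gsym1 f κ h x z + gsym1 f κ h y z := by
  rw [gsym1, map_add, sy1_add]
  rfl

theorem gsym1_add_right (f : H →* G) (κ : Γ →* G) (h : ∀ γ a, f a * κ γ = κ γ * f a)
    (x : K1 (MonoidAlgebra R H)) (z z' : HG Γ n) :
    gsym1 f κ h x (z + z') = gsym1 f κ h x z + gsym1 f κ h x z' := by
  rw [gsym1, map_add, sy1_addz]
  rfl

/-- the biadditive map -/
noncomputable def gsymB1 (f : H →* G) (κ : Γ →* G) (h : ∀ γ a, f a * κ γ = κ γ * f a) :
    K1 (MonoidAlgebra R H) →+ HG Γ n →+ HnK1 R G n :=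
  AddMonoidHom.mk' (fun x => AddMonoidHom.mk' (fun z => gsym1 f κ h x z)
    (fun z z' => gsym1_add_right f κ h x z z')) (by
      intro x y
      ext z
      exact gsym1_add_left f κ h x y z)

theorem gsym1_comp {H' : Type*} [Group H'] [Finite H'] (f : H →* G) (ψ : H' →* H) (κ : Γ →* G)
    (h : ∀ γ a, f a * κ γ = κ γ * f a) (h' : ∀ γ a, (f.comp ψ) a * κ γ = κ γ * (f.comp ψ) a)
    (x : K1 (MonoidAlgebra R H')) (z : HG Γ n) :
    gsym1 f κ h (K1.map (MonoidAlgebra.mapDomainRingHom R ψ) x) z =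
      gsym1 (f.comp ψ) κ h' x z := by
  have hr : ∀ x ∈ (rangeF (f.comp ψ)).1, (1 : G) * x * (1 : G)⁻¹ ∈ (rangeF f).1 := by
    rintro _ ⟨a, rfl⟩
    rw [one_mul, inv_one, mul_one]
    exact ⟨ψ a, rfl⟩
  have e1 : (MonoidAlgebra.mapDomainRingHom R f.rangeRestrict).comp
      (MonoidAlgebra.mapDomainRingHom R ψ) =
      (MonoidAlgebra.mapDomainRingHom R (conjHom 1 (rangeF (f.comp ψ)).1 (rangeF f).1 hr)).comp
        (MonoidAlgebra.mapDomainRingHom R (f.comp ψ).rangeRestrict) := by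
    rw [← MonoidAlgebra.mapDomainRingHom_comp, ← MonoidAlgebra.mapDomainRingHom_comp]
    congr 1
    refine MonoidHom.ext fun a => Subtype.ext ?_
    change f (ψ a) = 1 * f (ψ a) * 1⁻¹
    rw [one_mul, inv_one, mul_one]
  have e2 : (centConj 1 (rangeF (f.comp ψ)).1 (rangeF f).1 hr).comp (centRestrict f κ h) =
      centRestrict (f.comp ψ) κ h' := by
    refine MonoidHom.ext fun a => Subtype.ext ?_
    change (1 : G)⁻¹ * κ a * 1 = κ a
    rw [inv_one, one_mul, mul_one]
  rw [gsym1, gsym1, K1.map_map, e1, ← K1.map_map, sy1_conj, HG.map_map, e2]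

theorem gsym1_map {Γ' : Type*} [Group Γ'] (f : H →* G) (κ : Γ →* G) (ψ : Γ' →* Γ)
    (h : ∀ γ a, f a * κ γ = κ γ * f a) (h' : ∀ γ a, f a * (κ.comp ψ) γ = (κ.comp ψ) γ * f a)
    (x : K1 (MonoidAlgebra R H)) (z : HG Γ' n) :
    gsym1 f κ h x (HG.map n ψ z) = gsym1 f (κ.comp ψ) h' x z := by
  rw [gsym1, gsym1, HG.map_map]
  rfl

theorem gsym1_conj (f f' : H →* G) (κ κ' : Γ →* G) (g : G) (h : ∀ γ a, f a * κ γ = κ γ * f a)
    (h' : ∀ γ a, f' a * κ' γ = κ' γ * f' a) (hf : ∀ a, f' a = g * f a * g⁻¹)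
    (hκ : ∀ γ, κ' γ = g * κ γ * g⁻¹) (x : K1 (MonoidAlgebra R H)) (z : HG Γ n) :
    gsym1 f' κ' h' x z = gsym1 f κ h x z := by
  have hr : ∀ x ∈ (rangeF f).1, g * x * g⁻¹ ∈ (rangeF f').1 := by
    rintro _ ⟨a, rfl⟩
    exact ⟨a, hf a⟩
  have e1 : (MonoidAlgebra.mapDomainRingHom R f'.rangeRestrict) =
      (MonoidAlgebra.mapDomainRingHom R (conjHom g (rangeF f).1 (rangeF f').1 hr)).comp
        (MonoidAlgebra.mapDomainRingHom R f.rangeRestrict) := by
    rw [← MonoidAlgebra.mapDomainRingHom_comp]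
    congr 1
    exact MonoidHom.ext fun a => Subtype.ext (hf a)
  have e2 : (centConj g (rangeF f).1 (rangeF f').1 hr).comp (centRestrict f' κ' h') =
      centRestrict f κ h := by
    refine MonoidHom.ext fun a => Subtype.ext ?_
    change g⁻¹ * κ' a * g = κ a
    rw [hκ]
    group
  rw [gsym1, gsym1, e1, ← K1.map_map, sy1_conj, HG.map_map, e2]

/-- the class of a symbol is the class of the inclusions -/
theorem sy1_eq_gsym1 (F : FamSub G FinSub) (x : K1 (MonoidAlgebra R F.1))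
    (z : HG (Subgroup.centralizer (F.1 : Set G)) n) (hF : Finite F.1) :
    sy1 F x z = gsym1 F.1.subtype (Subgroup.centralizer (F.1 : Set G)).subtype
      (cent_comm F.1) x z := by
  have hr : ∀ x ∈ F.1, (1 : G) * x * (1 : G)⁻¹ ∈ (rangeF F.1.subtype).1 := by
    intro a ha
    rw [one_mul, inv_one, mul_one]
    exact ⟨⟨a, ha⟩, rfl⟩
  have e1 : (MonoidAlgebra.mapDomainRingHom R F.1.subtype.rangeRestrict) =
      MonoidAlgebra.mapDomainRingHom R (conjHom 1 F.1 (rangeF F.1.subtype).1 hr) := by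
    congr 1
    refine MonoidHom.ext fun a => Subtype.ext ?_
    change (a : G) = 1 * a * 1⁻¹
    rw [one_mul, inv_one, mul_one]
  have e2 : (centConj 1 F.1 (rangeF F.1.subtype).1 hr).comp
      (centRestrict F.1.subtype (Subgroup.centralizer (F.1 : Set G)).subtype (cent_comm F.1)) =
      MonoidHom.id _ := by
    refine MonoidHom.ext fun a => Subtype.ext ?_
    change (1 : G)⁻¹ * a * 1 = a
    rw [inv_one, one_mul, mul_one]
  rw [gsym1, e1, sy1_conj, HG.map_map, e2, HG.map_id]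

end

section

variable (R : Type u) [Ring R] (n : ℕ) {G : Type v} [Group G] {G' : Type w} [Group G']

/-- the image of a symbol as a biadditive map -/
noncomputable def symF1 (φ : G →* G') (F : FamSub G FinSub) : K1 (MonoidAlgebra R F.1) →+
    HG (Subgroup.centralizer (F.1 : Set G)) n →+ HnK1 R G' n :=
  haveI : Finite F.1 := F.2
  gsymB1 (φ.comp F.1.subtype) (φ.comp (Subgroup.centralizer (F.1 : Set G)).subtype)
    (comm_map φ F.1)

theorem symF1_conj (φ : G →* G') (F F' : FamSub G FinSub) (g : G)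
    (h : ∀ x ∈ F.1, g * x * g⁻¹ ∈ F'.1) (x : K1 (MonoidAlgebra R F.1))
    (z : HG (Subgroup.centralizer (F'.1 : Set G)) n) :
    symF1 R n φ F' (K1.map (MonoidAlgebra.mapDomainRingHom R (conjHom g F.1 F'.1 h)) x) z =
      symF1 R n φ F x (HG.map n (centConj g F.1 F'.1 h) z) := by
  haveI : Finite F.1 := F.2
  haveI : Finite F'.1 := F'.2
  change gsym1 (φ.comp F'.1.subtype) (φ.comp (Subgroup.centralizer (F'.1 : Set G)).subtype)
      (comm_map φ F'.1) (K1.map (MonoidAlgebra.mapDomainRingHom R (conjHom g F.1 F'.1 h)) x) z =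
    gsym1 (φ.comp F.1.subtype) (φ.comp (Subgroup.centralizer (F.1 : Set G)).subtype)
      (comm_map φ F.1) x (HG.map n (centConj g F.1 F'.1 h) z)
  have h1 : ∀ (γ : Subgroup.centralizer (F'.1 : Set G)) (a : F.1),
      ((φ.comp F'.1.subtype).comp (conjHom g F.1 F'.1 h)) a *
        (φ.comp (Subgroup.centralizer (F'.1 : Set G)).subtype) γ =
      (φ.comp (Subgroup.centralizer (F'.1 : Set G)).subtype) γ *
        ((φ.comp F'.1.subtype).comp (conjHom g F.1 F'.1 h)) a := fun γ a =>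
    comm_map φ F'.1 γ (conjHom g F.1 F'.1 h a)
  have h2 : ∀ (γ : Subgroup.centralizer (F'.1 : Set G)) (a : F.1),
      (φ.comp F.1.subtype) a * ((φ.comp (Subgroup.centralizer (F.1 : Set G)).subtype).comp
        (centConj g F.1 F'.1 h)) γ =
      ((φ.comp (Subgroup.centralizer (F.1 : Set G)).subtype).comp (centConj g F.1 F'.1 h)) γ *
        (φ.comp F.1.subtype) a := fun γ a => comm_map φ F.1 (centConj g F.1 F'.1 h γ) a
  rw [gsym1_comp (φ.comp F'.1.subtype) (conjHom g F.1 F'.1 h) _ (comm_map φ F'.1) h1,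
    gsym1_map (φ.comp F.1.subtype) _ (centConj g F.1 F'.1 h) (comm_map φ F.1) h2]
  apply gsym1_conj _ _ _ _ (φ g)
  · intro a
    change φ (g * a * g⁻¹) = φ g * φ a * (φ g)⁻¹
    rw [map_mul, map_mul, map_inv]
  · intro γ
    change φ γ = φ g * φ (g⁻¹ * γ * g) * (φ g)⁻¹
    rw [map_mul, map_mul, map_inv]
    group

/-- homomorphisms which agree on the symbols agree -/
theorem hom1_ext {M : Type*} [AddCommGroup M] {f g : HnK1 R G n →+ M}
    (h : ∀ (F : FamSub G FinSub) (x : K1 (MonoidAlgebra R F.1))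
      (z : HG (Subgroup.centralizer (F.1 : Set G)) n), f (sy1 F x z) = g (sy1 F x z)) : f = g := by
  apply QuotientAddGroup.addMonoidHom_ext (SymRel1 R G n)
  apply FreeAbelianGroup.lift_ext
  rintro ⟨F, x, z⟩
  exact h F x z

theorem asm1_congr' {A : Type*} [Ring A] {B : Type*} [Ring B] {Γ : Type*} [Group Γ]
    {φ φ' : B →+* A} {κ κ' : Γ →* Aˣ} (e : φ = φ') (e' : κ = κ')
    (hκ : ∀ γ b, φ b * (κ γ : A) = κ γ * φ b) (hκ' : ∀ γ b, φ' b * (κ' γ : A) = κ' γ * φ' b)
    (x : K1 B) (z : HG Γ n) : asm1 n φ κ hκ x z = asm1 n φ' κ' hκ' x z := by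
  subst e
  subst e'
  rfl

/-- Functoriality of the source of the assembly map. -/
noncomputable def mapH1 (φ : G →* G') : HnK1 R G n →+ HnK1 R G' n :=
  lift1 (symF1 R n φ) (symF1_conj R n φ)

theorem mapH1_sy1 (φ : G →* G') (F : FamSub G FinSub) (x : K1 (MonoidAlgebra R F.1))
    (z : HG (Subgroup.centralizer (F.1 : Set G)) n) (hF : Finite F.1) :
    mapH1 R n φ (sy1 F x z) = gsym1 (φ.comp F.1.subtype)
      (φ.comp (Subgroup.centralizer (F.1 : Set G)).subtype) (comm_map φ F.1) x z :=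
  lift1_sy1 _ _ F x z

theorem mapH1_gsym1 (φ : G →* G') {H : Type*} [Group H] [Finite H] {Γ : Type*} [Group Γ]
    (f : H →* G) (κ : Γ →* G) (h : ∀ γ a, f a * κ γ = κ γ * f a)
    (h' : ∀ γ a, (φ.comp f) a * (φ.comp κ) γ = (φ.comp κ) γ * (φ.comp f) a)
    (x : K1 (MonoidAlgebra R H)) (z : HG Γ n) :
    mapH1 R n φ (gsym1 f κ h x z) = gsym1 (φ.comp f) (φ.comp κ) h' x z := by
  haveI hfin : Finite (rangeF f).1 := (rangeF f).2
  rw [gsym1, mapH1_sy1 R n φ (rangeF f) _ _ hfin,
    gsym1_comp (φ.comp (rangeF f).1.subtype) f.rangeRestrict _ (comm_map φ (rangeF f).1)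
      (fun γ a => comm_map φ (rangeF f).1 γ (f.rangeRestrict a)),
    gsym1_map ((φ.comp (rangeF f).1.subtype).comp f.rangeRestrict)
      (φ.comp (Subgroup.centralizer ((rangeF f).1 : Set G)).subtype) (centRestrict f κ h) _
      (fun γ a => h' γ a)]
  rfl

theorem mapH1_mapH1 {G'' : Type*} [Group G''] (φ : G →* G') (ψ : G' →* G'') (z : HnK1 R G n) :
    mapH1 R n ψ (mapH1 R n φ z) = mapH1 R n (ψ.comp φ) z := by
  suffices H : (mapH1 R n ψ).comp (mapH1 R n φ) = mapH1 R n (ψ.comp φ) from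
    DFunLike.congr_fun H z
  refine hom1_ext R n fun F x z => ?_
  haveI : Finite F.1 := F.2
  rw [AddMonoidHom.comp_apply, mapH1_sy1 R n φ F x z this,
    mapH1_sy1 R n (ψ.comp φ) F x z this]
  exact mapH1_gsym1 R n ψ _ _ _ _ x z

theorem assembly1_gsym1 {H : Type*} [Group H] [Finite H] {Γ : Type*} [Group Γ]
    (f : H →* G) (κ : Γ →* G) (h : ∀ γ a, f a * κ γ = κ γ * f a)
    (x : K1 (MonoidAlgebra R H)) (z : HG Γ n) :
    assembly1 R n G (gsym1 f κ h x z) = gasm1 R n f κ h x z := by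
  rw [gsym1, asm1_sy1, gasm1_comp R n (rangeF f).1.subtype f.rangeRestrict _
      (cent_comm (rangeF f).1) (fun γ a => cent_comm (rangeF f).1 γ (f.rangeRestrict a)),
    gasm1_map R n _ _ (centRestrict f κ h) _ h]
  rfl

theorem map_gasm1' (φ : G →* G') {H : Type*} [Group H] {Γ : Type*} [Group Γ]
    (f : H →* G) (κ : Γ →* G) (h : ∀ γ a, f a * κ γ = κ γ * f a)
    (h' : ∀ γ a, (φ.comp f) a * (φ.comp κ) γ = (φ.comp κ) γ * (φ.comp f) a)
    (x : K1 (MonoidAlgebra R H)) (z : HG Γ n) :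
    KQ.map (MonoidAlgebra.mapDomainRingHom R φ) (gasm1 R n f κ h x z) =
      gasm1 R n (φ.comp f) (φ.comp κ) h' x z := by
  have e1 : (MonoidAlgebra.mapDomainRingHom R φ).comp (MonoidAlgebra.mapDomainRingHom R f) =
      MonoidAlgebra.mapDomainRingHom R (φ.comp f) :=
    (MonoidAlgebra.mapDomainRingHom_comp _ _).symm
  have e2 : (Units.map ((MonoidAlgebra.mapDomainRingHom R φ :
      MonoidAlgebra R G →+* MonoidAlgebra R G') : MonoidAlgebra R G →* MonoidAlgebra R G')).comp
      ((grpHom R G).comp κ) = (grpHom R G').comp (φ.comp κ) := by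
    refine MonoidHom.ext fun γ => Units.ext ?_
    change MonoidAlgebra.mapDomain φ (MonoidAlgebra.single (κ γ) 1) =
      MonoidAlgebra.single (φ (κ γ)) 1
    rw [MonoidAlgebra.mapDomain_single]
  have hc : ∀ γ b, ((MonoidAlgebra.mapDomainRingHom R φ).comp
      (MonoidAlgebra.mapDomainRingHom R f)) b *
      (((Units.map ((MonoidAlgebra.mapDomainRingHom R φ :
        MonoidAlgebra R G →+* MonoidAlgebra R G') : MonoidAlgebra R G →*
          MonoidAlgebra R G')).comp ((grpHom R G).comp κ)) γ : MonoidAlgebra R G') =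
      ((Units.map ((MonoidAlgebra.mapDomainRingHom R φ :
        MonoidAlgebra R G →+* MonoidAlgebra R G') : MonoidAlgebra R G →*
          MonoidAlgebra R G')).comp ((grpHom R G).comp κ)) γ *
        ((MonoidAlgebra.mapDomainRingHom R φ).comp (MonoidAlgebra.mapDomainRingHom R f)) b := by
    rw [e1, e2]
    exact grpHom_comm R (φ.comp f) (φ.comp κ) h'
  exact (map_asm1 _ _ _ _ hc x z).trans (asm1_congr' n e1 e2 _ _ x z)

/-- **The assembly map is natural in the group.** -/
theorem assembly1_map (φ : G →* G') (z : HnK1 R G n) :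
    assembly1 R n G' (mapH1 R n φ z) =
      KQ.map (MonoidAlgebra.mapDomainRingHom R φ) (assembly1 R n G z) := by
  suffices H : (assembly1 R n G').comp (mapH1 R n φ) =
      (KQ.map (MonoidAlgebra.mapDomainRingHom R φ)).comp (assembly1 R n G) from
    DFunLike.congr_fun H z
  refine hom1_ext R n fun F x z => ?_
  haveI : Finite F.1 := F.2
  rw [AddMonoidHom.comp_apply, AddMonoidHom.comp_apply, mapH1_sy1 R n φ F x z this,
    assembly1_gsym1, asm1_sy1]
  exact (map_gasm1' R n φ _ _ _ _ x z).symm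

/-- **Every class comes from the subgroups which contain a finite set.** -/
theorem exists_lift1 (z : HnK1 R G n) :
    ∃ S : Finset G, ∀ G' : Subgroup G, (∀ s ∈ S, s ∈ G') →
      ∃ y : HnK1 R G' n, mapH1 R n G'.subtype y = z := by
  classical
  induction z using hnk1_induction with
  | h0 => exact ⟨∅, fun G' _ => ⟨0, map_zero _⟩⟩
  | h1 F x z =>
    haveI hfin : Finite F.1 := F.2
    haveI : Fintype F.1 := Fintype.ofFinite _
    obtain ⟨S, hS⟩ := HG.exists_lift z
    refine ⟨(Finset.univ.image fun a : F.1 => (a : G)) ∪ S.image (Subgroup.centralizer (F.1 : Set G)).subtype, ?_⟩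
    intro G' hG'
    have hF : ∀ a : F.1, (a : G) ∈ G' := fun a =>
      hG' _ (Finset.mem_union_left _ (Finset.mem_image_of_mem _ (Finset.mem_univ a)))
    obtain ⟨y, hy⟩ := hS (G'.subgroupOf (Subgroup.centralizer (F.1 : Set G))) fun s hs =>
      hG' _ (Finset.mem_union_right _ (Finset.mem_image_of_mem _ hs))
    let f1 : F.1 →* G' := F.1.subtype.codRestrict G' hF
    let κ1 : G'.subgroupOf (Subgroup.centralizer (F.1 : Set G)) →* G' :=
      ((Subgroup.centralizer (F.1 : Set G)).subtype.comp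
        (G'.subgroupOf (Subgroup.centralizer (F.1 : Set G))).subtype).codRestrict G' fun γ => γ.2
    have hc : ∀ γ a, f1 a * κ1 γ = κ1 γ * f1 a := fun γ a =>
      Subtype.ext (cent_comm F.1 γ.1 a)
    refine ⟨gsym1 f1 κ1 hc x y, ?_⟩
    rw [mapH1_gsym1 R n G'.subtype f1 κ1 hc (fun γ a => cent_comm F.1 γ.1 a)]
    rw [sy1_eq_gsym1 F x z hfin, ← hy, gsym1_map _ _ _ _ (fun γ a => cent_comm F.1 γ.1 a)]
    rfl
  | h2 a b ha hb =>
    obtain ⟨S1, h1⟩ := ha
    obtain ⟨S2, h2⟩ := hb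
    refine ⟨S1 ∪ S2, fun G' hG' => ?_⟩
    obtain ⟨y1, e1⟩ := h1 G' fun s hs => hG' s (Finset.mem_union_left _ hs)
    obtain ⟨y2, e2⟩ := h2 G' fun s hs => hG' s (Finset.mem_union_right _ hs)
    exact ⟨y1 + y2, by rw [map_add, e1, e2]⟩
  | h3 a ha =>
    obtain ⟨S, hS⟩ := ha
    refine ⟨S, fun G' hG' => ?_⟩
    obtain ⟨y, hy⟩ := hS G' hG'
    exact ⟨-y, by rw [map_neg, hy]⟩

end

/-- **Rational injectivity of the joint assembly map is a local property in the group.** -/
theorem ratInj01_directed {R : Type u} [Ring R] {G : Type v} [Group G] {n : ℕ}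
    (P : Subgroup G → Prop)
    (hP : ∀ S : Finset G, ∃ G' : Subgroup G, P G' ∧ ∀ g ∈ S, g ∈ G')
    (h : ∀ G' : Subgroup G, P G' → RatInj (assembly01 R n G')) : RatInj (assembly01 R n G) := by
  classical
  rw [ratInj_iff]
  intro z M hM hz
  obtain ⟨S0, hS0⟩ := HnK0.exists_lift R (n + 1) z.1
  obtain ⟨S1, hS1⟩ := exists_lift1 R n z.2
  set S : Finset G := S0 ∪ S1 with hS
  obtain ⟨z1, hz1⟩ := hS0 (Subgroup.closure (S : Set G)) fun s hs =>
    Subgroup.subset_closure (Finset.mem_union_left _ hs)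
  obtain ⟨z2, hz2⟩ := hS1 (Subgroup.closure (S : Set G)) fun s hs =>
    Subgroup.subset_closure (Finset.mem_union_right _ hs)
  have key : ∀ (G₁ : Subgroup G) (w : HnK0 R (Subgroup.closure (S : Set G)) (n + 1) ×
      HnK1 R (Subgroup.closure (S : Set G)) n) (φ : Subgroup.closure (S : Set G) →* G₁),
      assembly01 R n G₁ (HnK0.map R (n + 1) φ w.1, mapH1 R n φ w.2) =
        KQ.map (MonoidAlgebra.mapDomainRingHom R φ)
          (assembly01 R n (Subgroup.closure (S : Set G)) w) := by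
    intro G₁ w φ
    change assemblyN R (n + 1) G₁ (HnK0.map R (n + 1) φ w.1) + assembly1 R n G₁ (mapH1 R n φ w.2) =
      KQ.map (MonoidAlgebra.mapDomainRingHom R φ) (assemblyN R (n + 1) _ w.1 + assembly1 R n _ w.2)
    rw [map_add, assemblyN_map, assembly1_map]
  have h1 : KQ.map (MonoidAlgebra.mapDomainRingHom R (Subgroup.closure (S : Set G)).subtype)
      (M • assembly01 R n (Subgroup.closure (S : Set G)) (z1, z2)) = 0 := by
    have h0 : assembly01 R n (Subgroup.closure (S : Set G)) (z1, z2) =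
      assemblyN R (n + 1) _ z1 + assembly1 R n _ z2 := rfl
    rw [map_zsmul, h0, map_add, ← assemblyN_map, ← assembly1_map, hz1, hz2]
    exact hz
  obtain ⟨T, hT⟩ := KQ.exists_zero.{max u v, max u v, max u v} _ _ h1
  obtain ⟨G', hPG, hG'⟩ := hP (S ∪ T.biUnion fun a => a.coeff.support)
  have hle : Subgroup.closure (S : Set G) ≤ G' := by
    rw [Subgroup.closure_le]
    intro s hs
    exact hG' s (Finset.mem_union_left _ hs)
  have hcomp : G'.subtype.comp (Subgroup.inclusion hle) =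
      (Subgroup.closure (S : Set G)).subtype := rfl
  have h2 : KQ.map (MonoidAlgebra.mapDomainRingHom R (Subgroup.inclusion hle))
      (M • assembly01 R n (Subgroup.closure (S : Set G)) (z1, z2)) = 0 := by
    refine hT (MonoidAlgebra.mapDomainRingHom R G'.subtype) _
      (mapDomainRingHom_injective R _ G'.subtype_injective) ?_ ?_
    · rw [← hcomp]
      exact (MonoidAlgebra.mapDomainRingHom_comp _ _).symm
    · intro a ha
      exact mem_range_mapDomainRingHom R G' a fun g hg =>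
        hG' g (Finset.mem_union_right _ (Finset.mem_biUnion.2 ⟨a, ha, hg⟩))
  rw [map_zsmul, ← key] at h2
  obtain ⟨m, hm, h3⟩ := ratInj_iff.1 (h G' hPG) _ M hM h2
  refine ⟨m, hm, ?_⟩
  have h4 : m • HnK0.map R (n + 1) (Subgroup.inclusion hle) z1 = 0 := congrArg Prod.fst h3
  have h5 : m • mapH1 R n (Subgroup.inclusion hle) z2 = 0 := congrArg Prod.snd h3
  have h6 := congrArg (HnK0.map R (n + 1) G'.subtype) h4
  have h7 := congrArg (mapH1 R n G'.subtype) h5
  rw [map_zsmul, HnK0.map_map, map_zero, hcomp, hz1] at h6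
  rw [map_zsmul, mapH1_mapH1, map_zero, hcomp, hz2] at h7
  exact Prod.ext h6 h7

end Pool.Agent.H71.FU1
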