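import Pool.Agent.H71.FU1.Fun1
import Pool.Agent.H71.FQ.Prod

/-!
# Project FU: finite products of rings, the joint assembly map

A homomorphism `f : R → S` of rings without unit induces `k1n f : K₁(R) → K₁(S)`, `[U] ↦ [1 + f(U - 1)]`. For homomorphisms
`f`, `g` with orthogonal images `k1n (f + g) = k1n f + k1n g`.
-/

set_option autoImplicit false

open Matrix

universe u u' v w

namespace Pool.Agent.H71.FU1

open Pool.Agent.H71.FQ
open Pool.Agent.H16.FU
open Pool.Agent.H71.FJ (K0 K0.map)
open Pool.Agent.H95.WH (K1 K1.mk K1.lift K1.lift_mk K1.hom_ext K1.mk_mul K1.mk_stab K1.map K1.map_mk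
  K1.map_map FamSub conjHom FinSub stab stabMat)

section Nonunital

variable {R : Type*} [Ring R] {S : Type*} [Ring S]

theorem nU_aux (f : R →ₙ+* S) {N : ℕ} (X Y : Matrix (Fin N) (Fin N) R) :
    (X.map f + (1 - (1 : Matrix (Fin N) (Fin N) R).map f)) *
      (Y.map f + (1 - (1 : Matrix (Fin N) (Fin N) R).map f)) =
        (X * Y).map f + (1 - (1 : Matrix (Fin N) (Fin N) R).map f) := by
  have h1 : X.map f * (1 : Matrix (Fin N) (Fin N) R).map f = X.map f := by
    rw [← nmap_mul, Matrix.mul_one]
  have h2 : (1 : Matrix (Fin N) (Fin N) R).map f * Y.map f = Y.map f := by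
    rw [← nmap_mul, Matrix.one_mul]
  have h3 : (1 : Matrix (Fin N) (Fin N) R).map f * (1 : Matrix (Fin N) (Fin N) R).map f =
      (1 : Matrix (Fin N) (Fin N) R).map f := by
    rw [← nmap_mul, Matrix.one_mul]
  rw [add_mul, mul_add, mul_add, mul_sub, mul_one, h1, sub_self, add_zero, sub_mul, sub_mul,
    one_mul, one_mul, h2, sub_self, zero_add, mul_sub, mul_one, h3, sub_self, sub_zero,
    ← nmap_mul]

/-- The matrix `1 + f(U - 1)`. -/
def nU (f : R →ₙ+* S) (N : ℕ) : GLm N R →* GLm N S where
  toFun U :=
    { val := U.val.map f + (1 - (1 : Matrix (Fin N) (Fin N) R).map f)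
      inv := U.inv.map f + (1 - (1 : Matrix (Fin N) (Fin N) R).map f)
      val_inv := by rw [nU_aux, Units.val_inv, add_sub_cancel]
      inv_val := by rw [nU_aux, Units.inv_val, add_sub_cancel] }
  map_one' := by
    apply Units.ext
    change (1 : Matrix (Fin N) (Fin N) R).map f + (1 - (1 : Matrix (Fin N) (Fin N) R).map f) = 1
    rw [add_sub_cancel]
  map_mul' U V := by
    apply Units.ext
    exact (nU_aux f U.val V.val).symm

theorem nU_val (f : R →ₙ+* S) (N : ℕ) (U : GLm N R) :
    (nU f N U).val = U.val.map f + (1 - (1 : Matrix (Fin N) (Fin N) R).map f) := rfl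

theorem nU_stab (f : R →ₙ+* S) (N : ℕ) (U : GLm N R) :
    nU f (N + 1) (stab U) = stab (nU f N U) := by
  apply Units.ext
  have h0 : (1 : Matrix (Fin (N + 1)) (Fin (N + 1)) R).map f = Matrix.reindex finSumFinEquiv
      finSumFinEquiv (fromBlocks ((1 : Matrix (Fin N) (Fin N) R).map f) 0 0
        ((1 : Matrix (Fin 1) (Fin 1) R).map f)) := by
    have h1 : (1 : Matrix (Fin (N + 1)) (Fin (N + 1)) R) = Matrix.reindex finSumFinEquiv
        finSumFinEquiv (fromBlocks (1 : Matrix (Fin N) (Fin N) R) 0 0
          (1 : Matrix (Fin 1) (Fin 1) R)) := by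
      rw [Matrix.fromBlocks_one, Matrix.reindex_apply, Matrix.submatrix_one_equiv]
    rw [h1, Matrix.reindex_apply, Matrix.reindex_apply, ← Matrix.submatrix_map,
      Matrix.fromBlocks_map, Matrix.map_zero _ (map_zero f), Matrix.map_zero _ (map_zero f)]
  have h2 : (1 : Matrix (Fin (N + 1)) (Fin (N + 1)) S) = Matrix.reindex finSumFinEquiv
      finSumFinEquiv (fromBlocks (1 : Matrix (Fin N) (Fin N) S) 0 0
        (1 : Matrix (Fin 1) (Fin 1) S)) := by
    rw [Matrix.fromBlocks_one, Matrix.reindex_apply, Matrix.submatrix_one_equiv]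
  change (stabMat U.val).map f + (1 - (1 : Matrix (Fin (N + 1)) (Fin (N + 1)) R).map f) =
    stabMat (U.val.map f + (1 - (1 : Matrix (Fin N) (Fin N) R).map f))
  rw [h0, h2, stabMat, stabMat]
  simp only [Matrix.reindex_apply]
  rw [← Matrix.submatrix_map, Matrix.fromBlocks_map, Matrix.map_zero _ (map_zero f),
    Matrix.map_zero _ (map_zero f)]
  ext i j
  simp only [Matrix.add_apply, Matrix.sub_apply, Matrix.submatrix_apply]
  rcases finSumFinEquiv.symm i with i | i <;> rcases finSumFinEquiv.symm j with j | j
  · simp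
  · simp
  · simp
  · simp

/-- The homomorphism `K₁(R) → K₁(S)` of a homomorphism of rings without unit. -/
noncomputable def k1n (f : R →ₙ+* S) : K1 R →+ K1 S :=
  K1.lift (fun N U => K1.mk (nU f N U))
    (fun N U V => by rw [map_mul, K1.mk_mul])
    (fun N U => by rw [nU_stab, K1.mk_stab])

theorem k1n_mk (f : R →ₙ+* S) {N : ℕ} (U : GLm N R) : k1n f (K1.mk U) = K1.mk (nU f N U) :=
  K1.lift_mk _ _ _ U

theorem k1n_square {R' : Type*} [Ring R'] {S' : Type*} [Ring S'] (f : R →ₙ+* S) (g : R →+* R')
    (f' : R' →ₙ+* S') (g' : S →+* S') (h : ∀ x, f' (g x) = g' (f x)) (x : K1 R) :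
    k1n f' (K1.map g x) = K1.map g' (k1n f x) := by
  have h1 : (k1n f').comp (K1.map g) = (K1.map g').comp (k1n f) := by
    apply K1.hom_ext
    intro N U
    rw [AddMonoidHom.comp_apply, AddMonoidHom.comp_apply, K1.map_mk, k1n_mk, k1n_mk, K1.map_mk]
    congr 1
    apply Units.ext
    refine Matrix.ext fun i j => ?_
    change f' (g (U.val i j)) + ((1 : Matrix (Fin N) (Fin N) S') i j -
        f' ((1 : Matrix (Fin N) (Fin N) R') i j)) =
      g' (f (U.val i j) + ((1 : Matrix (Fin N) (Fin N) S) i j -
        f ((1 : Matrix (Fin N) (Fin N) R) i j)))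
    have h2 : (1 : Matrix (Fin N) (Fin N) R') i j = g ((1 : Matrix (Fin N) (Fin N) R) i j) := by
      rw [Matrix.one_apply, Matrix.one_apply]
      split_ifs
      · rw [map_one]
      · rw [map_zero]
    have h3 : (1 : Matrix (Fin N) (Fin N) S') i j = g' ((1 : Matrix (Fin N) (Fin N) S) i j) := by
      rw [Matrix.one_apply, Matrix.one_apply]
      split_ifs
      · rw [map_one]
      · rw [map_zero]
    rw [h2, h3, h, h, map_add, map_sub]
  exact DFunLike.congr_fun h1 x

/-- composition with a homomorphism of rings -/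
theorem k1n_map {R' : Type*} [Ring R'] (f : R' →ₙ+* S) (g : R →+* R') (h : R →ₙ+* S)
    (hh : ∀ x, f (g x) = h x) (x : K1 R) : k1n f (K1.map g x) = k1n h x := by
  have h1 : (k1n f).comp (K1.map g) = k1n h := by
    apply K1.hom_ext
    intro N U
    rw [AddMonoidHom.comp_apply, K1.map_mk, k1n_mk, k1n_mk]
    congr 1
    apply Units.ext
    refine Matrix.ext fun i j => ?_
    change f (g (U.val i j)) + ((1 : Matrix (Fin N) (Fin N) S) i j -
        f ((1 : Matrix (Fin N) (Fin N) R') i j)) =
      h (U.val i j) + ((1 : Matrix (Fin N) (Fin N) S) i j -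
        h ((1 : Matrix (Fin N) (Fin N) R) i j))
    have h2 : (1 : Matrix (Fin N) (Fin N) R') i j = g ((1 : Matrix (Fin N) (Fin N) R) i j) := by
      rw [Matrix.one_apply, Matrix.one_apply]
      split_ifs
      · rw [map_one]
      · rw [map_zero]
    rw [h2, hh, hh]
  exact DFunLike.congr_fun h1 x

theorem k1n_zero (f : R →ₙ+* S) (hf : ∀ x, f x = 0) (x : K1 R) : k1n f x = 0 := by
  have h1 : k1n f = 0 := by
    apply K1.hom_ext
    intro N U
    rw [k1n_mk]
    have h2 : nU f N U = 1 := by
      apply Units.ext
      refine Matrix.ext fun i j => ?_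
      change f (U.val i j) + ((1 : Matrix (Fin N) (Fin N) S) i j -
        f ((1 : Matrix (Fin N) (Fin N) R) i j)) = (1 : Matrix (Fin N) (Fin N) S) i j
      rw [hf, hf, sub_zero, zero_add]
    have h3 : (K1.mk (1 : GLm N S)) + K1.mk (1 : GLm N S) = K1.mk (1 : GLm N S) := by
      rw [← K1.mk_mul, mul_one]
    rw [h2]
    exact left_eq_add.1 h3.symm
  rw [h1]
  rfl

theorem k1n_id (f : R →ₙ+* R) (hf : ∀ x, f x = x) (x : K1 R) : k1n f x = x := by
  have h1 : k1n f = AddMonoidHom.id _ := by
    apply K1.hom_ext
    intro N U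
    rw [k1n_mk, AddMonoidHom.id_apply]
    congr 1
    apply Units.ext
    refine Matrix.ext fun i j => ?_
    change f (U.val i j) + ((1 : Matrix (Fin N) (Fin N) R) i j -
        f ((1 : Matrix (Fin N) (Fin N) R) i j)) = U.val i j
    rw [hf, hf, sub_self, add_zero]
  rw [h1]
  rfl

/-- homomorphisms with orthogonal images -/
theorem k1n_add (f g h : R →ₙ+* S) (hh : ∀ x, h x = f x + g x) (hfg : ∀ x y, f x * g y = 0)
    (x : K1 R) : k1n h x = k1n f x + k1n g x := by
  have h1 : k1n h = k1n f + k1n g := by
    apply K1.hom_ext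
    intro N U
    rw [AddMonoidHom.add_apply, k1n_mk, k1n_mk, k1n_mk, ← K1.mk_mul]
    congr 1
    apply Units.ext
    have e1 : ∀ X : Matrix (Fin N) (Fin N) R, X.map h = X.map f + X.map g := fun X =>
      Matrix.ext fun i j => hh _
    have e2 : ∀ X Y : Matrix (Fin N) (Fin N) R, X.map f * Y.map g = 0 := fun X Y =>
      Matrix.ext fun i j => by
        rw [Matrix.mul_apply, Matrix.zero_apply]
        exact Finset.sum_eq_zero fun c _ => hfg _ _
    rw [Units.val_mul, nU_val, nU_val, nU_val, e1, e1]
    simp only [add_mul, mul_add, sub_mul, mul_sub, one_mul, mul_one, e2]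
    abel
  rw [h1]
  rfl

/-- The family of a homomorphism of rings without unit. -/
noncomputable def NatK1.ofN (f : R →ₙ+* S) (G : Type v) [Group G] : NatK1 R S G where
  app F := k1n (coefN F.1 f)
  nat F F' g h x := k1n_square _ _ _ _ (fun y => coefN_mapDomain f (conjHom g F.1 F'.1 h) y) x

end Nonunital

section

variable {ι : Type w} [DecidableEq ι] (T : ι → Type u) [∀ i, Ring (T i)]

/-- the projection to a set of factors -/
def prN (t : Finset ι) : (∀ i, T i) →ₙ+* (∀ i, T i) where
  toFun x i := if i ∈ t then x i else 0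
  map_mul' x y := by
    funext i
    by_cases h : i ∈ t <;> simp [h]
  map_zero' := by
    funext i
    by_cases h : i ∈ t <;> simp
  map_add' x y := by
    funext i
    by_cases h : i ∈ t <;> simp [h]

theorem prN_apply (t : Finset ι) (x : ∀ i, T i) (i : ι) :
    prN T t x i = if i ∈ t then x i else 0 := rfl

theorem prN_insert (a : ι) (t : Finset ι) (ha : a ∉ t) (x : ∀ i, T i) :
    prN T (insert a t) x = injN T a (x a) + prN T t x := by
  funext i
  change (if i ∈ insert a t then x i else 0) =
    (Pi.single a (x a) : ∀ i, T i) i + (if i ∈ t then x i else 0)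
  by_cases h : i = a
  · subst h
    rw [if_pos (Finset.mem_insert_self _ _), Pi.single_eq_same, if_neg ha, add_zero]
  · rw [Pi.single_eq_of_ne h, zero_add]
    by_cases h' : i ∈ t
    · rw [if_pos h', if_pos (Finset.mem_insert_of_mem h')]
    · rw [if_neg h', if_neg (fun h'' => h' ((Finset.mem_insert.1 h'').resolve_left h))]

theorem injN_mul_prN (a : ι) (t : Finset ι) (ha : a ∉ t) (x : T a) (y : ∀ i, T i) :
    injN T a x * prN T t y = 0 := by
  funext i
  change (Pi.single a x : ∀ i, T i) i * (if i ∈ t then y i else 0) = 0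
  by_cases h : i = a
  · subst h
    rw [if_neg ha, mul_zero]
  · rw [Pi.single_eq_of_ne h, zero_mul]

/-- coefficientwise maps with orthogonal images -/
theorem coefN_orth {R R' S : Type*} [Ring R] [Ring R'] [Ring S] (H : Type*) [Monoid H]
    (f : R →ₙ+* S) (g : R' →ₙ+* S) (h : ∀ x y, f x * g y = 0) (x : MonoidAlgebra R H)
    (y : MonoidAlgebra R' H) : coefN H f x * coefN H g y = 0 := by
  induction x using MonoidAlgebra.induction_linear with
  | zero => rw [map_zero, zero_mul]
  | add a b ha hb => rw [map_add, add_mul, ha, hb, add_zero]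
  | single m r =>
    induction y using MonoidAlgebra.induction_linear with
    | zero => rw [map_zero, mul_zero]
    | add a b ha hb => rw [map_add, mul_add, ha, hb, add_zero]
    | single m' r' =>
      rw [coefN_single, coefN_single, MonoidAlgebra.single_mul_single, h, MonoidAlgebra.single_zero]

/-- the composition of the projection to a factor and the inclusion -/
def qN (i : ι) : (∀ i, T i) →ₙ+* (∀ i, T i) :=
  (injN T i).comp (Pi.evalRingHom T i).toNonUnitalRingHom

theorem qN_apply (i : ι) (x : ∀ i, T i) : qN T i x = injN T i (x i) := rfl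

/-- The sum over the factors of the composition of the projection and the inclusion is the identity. -/
theorem sum_injN1 [Fintype ι] (H : Type v) [Monoid H] (x : K1 (MonoidAlgebra (∀ i, T i) H)) :
    ∑ i, k1n (coefN H (injN T i))
      (K1.map (MonoidAlgebra.mapRingHom H (Pi.evalRingHom T i)) x) = x := by
  have key : ∀ t : Finset ι, k1n (coefN H (prN T t)) x = ∑ i ∈ t, k1n (coefN H (injN T i))
      (K1.map (MonoidAlgebra.mapRingHom H (Pi.evalRingHom T i)) x) := by
    intro t
    induction t using Finset.induction_on with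
    | empty =>
      rw [Finset.sum_empty]
      apply k1n_zero
      intro y
      induction y using MonoidAlgebra.induction_linear with
      | zero => rw [map_zero]
      | add a b ha hb => rw [map_add, ha, hb, add_zero]
      | single m r =>
        rw [coefN_single]
        have h1 : prN T ∅ r = 0 := by
          funext i
          rw [prN_apply, if_neg (Finset.notMem_empty i)]
          rfl
        rw [h1, MonoidAlgebra.single_zero]
    | insert a t ha ih =>
      rw [Finset.sum_insert ha, ← ih]
      rw [k1n_map (coefN H (injN T a)) (MonoidAlgebra.mapRingHom H (Pi.evalRingHom T a))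
        (coefN H (qN T a)) (by
          intro y
          induction y using MonoidAlgebra.induction_linear with
          | zero => rw [map_zero, map_zero, map_zero]
          | add a b ha hb => rw [map_add, map_add, map_add, ha, hb]
          | single m r =>
            rw [MonoidAlgebra.mapRingHom_single, coefN_single, coefN_single]
            rfl) x]
      apply k1n_add
      · intro y
        induction y using MonoidAlgebra.induction_linear with
        | zero => rw [map_zero, map_zero, map_zero, add_zero]
        | add a b ha hb =>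
          rw [map_add, map_add, map_add, ha, hb]
          abel
        | single m r =>
          rw [coefN_single, coefN_single, coefN_single, prN_insert T a t ha, qN_apply,
            MonoidAlgebra.single_add]
      · intro y z
        refine coefN_orth H _ _ (fun r s => ?_) y z
        rw [qN_apply]
        exact injN_mul_prN T a t ha _ _
  rw [← key Finset.univ]
  apply k1n_id
  intro y
  induction y using MonoidAlgebra.induction_linear with
  | zero => rw [map_zero]
  | add a b ha hb => rw [map_add, ha, hb]
  | single m r =>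
    rw [coefN_single]
    have h1 : prN T Finset.univ r = r := by
      funext i
      rw [prN_apply, if_pos (Finset.mem_univ i)]
    rw [h1]

end

/-- **Finite products of rings.** -/
theorem ratInj01_pi {ι : Type w} [Finite ι] (T : ι → Type u) [∀ i, Ring (T i)] {G : Type v}
    [Group G] (n : ℕ) (h : ∀ i, RatInj (assembly01 (T i) n G)) :
    RatInj (assembly01 (∀ i, T i) n G) := by
  classical
  have := Fintype.ofFinite ι
  refine ratInj01_of_family Finset.univ T n (fun i => NatK0.ofHom G (Pi.evalRingHom T i))
    (fun i => NatK0.ofN (injN T i) G) (fun i => NatK1.ofHom G (Pi.evalRingHom T i))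
    (fun i => NatK1.ofN (injN T i) G) one_ne_zero one_ne_zero (fun F x => ?_) (fun F x => ?_)
    (fun i => KQ.map (MonoidAlgebra.mapRingHom G (Pi.evalRingHom T i)))
    (fun i _ F x z => NatK0.ofHom_asm (Pi.evalRingHom T i) F x z)
    (fun i _ F x z => NatK1.ofHom_asm (Pi.evalRingHom T i) F x z) (fun i _ => h i)
  · rw [one_smul]
    exact sum_injN T F.1 x
  · rw [one_smul]
    exact sum_injN1 T F.1 x

end Pool.Agent.H71.FU1
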